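import Pool.Agent.Helper52.BC.P2

/-!
# The order of a permutation group with a transitive normal subgroup
-/

set_option autoImplicit false

namespace Pool.Agent.Helper52.BC

open Subgroup MulAction

universe u v

/-- A finite group is generated by at most `log2` of its order elements. -/
theorem exists_gen (V : Type u) [Group V] [Finite V] : ∃ S : Finset V, closure (S : Set V) = ⊤ ∧ 2 ^ S.card ≤ Nat.card V := by
  classical
  have hfin : {S : Finset V | 2 ^ S.card ≤ Nat.card (closure (S : Set V))}.Finite := by
    have : Fintype V := Fintype.ofFinite V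
    exact Set.toFinite _
  have hne : {S : Finset V | 2 ^ S.card ≤ Nat.card (closure (S : Set V))}.Nonempty := ⟨∅, by
    show 2 ^ (∅ : Finset V).card ≤ Nat.card (closure ((∅ : Finset V) : Set V))
    rw [Finset.card_empty, pow_zero]
    exact Nat.card_pos⟩
  obtain ⟨S, hS⟩ := hfin.exists_maximal hne
  have hS1 : 2 ^ S.card ≤ Nat.card (closure (S : Set V)) := hS.1
  refine ⟨S, ?_, le_trans hS1 (Subgroup.card_le_card_group _)⟩
  by_contra hne'
  obtain ⟨x, hx⟩ : ∃ x, x ∉ closure (S : Set V) := by
    by_contra hcon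
    push Not at hcon
    exact hne' (eq_top_iff.2 fun x _ => hcon x)
  have hxS : x ∉ S := fun h => hx (subset_closure (by exact_mod_cast h))
  have h1 : 2 ^ (insert x S).card ≤ Nat.card (closure ((insert x S : Finset V) : Set V)) := by
    rw [Finset.card_insert_of_notMem hxS, pow_succ]
    have hle : closure (S : Set V) ≤ closure ((insert x S : Finset V) : Set V) :=
      closure_mono (by rw [Finset.coe_insert]; exact Set.subset_insert _ _)
    have h2 := Subgroup.relIndex_mul_relIndex (⊥ : Subgroup V) _ _ bot_le hle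
    rw [Subgroup.relIndex_bot_left, Subgroup.relIndex_bot_left] at h2
    have h3 : (closure (S : Set V)).relIndex (closure ((insert x S : Finset V) : Set V)) ≠ 1 := by
      intro h
      have h4 := Subgroup.relIndex_eq_one.1 h
      exact hx (h4 (subset_closure (by simp)))
    have h5 := relIndex_ne (closure (S : Set V)) (closure ((insert x S : Finset V) : Set V))
    rw [← h2]
    exact Nat.mul_le_mul hS1 (by omega)
  have h2 := hS.2 h1 (Finset.subset_insert x S)
  exact hxS (h2 (Finset.mem_insert_self x S))

theorem card_mulAut_le (V : Type u) [Group V] [Finite V] : Nat.card (MulAut V) ≤ Nat.card V ^ Nat.log 2 (Nat.card V) := by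
  classical
  obtain ⟨S, hS, hc⟩ := exists_gen V
  have h1 : Nat.card (MulAut V) ≤ Nat.card (S → V) := by
    refine Nat.card_le_card_of_injective (fun φ : MulAut V => fun s : S => φ s) ?_
    intro φ ψ h
    have : φ.toMonoidHom = ψ.toMonoidHom := by
      refine MonoidHom.eq_of_eqOn_dense hS ?_
      intro s hs
      exact congrFun h ⟨s, by exact_mod_cast hs⟩
    ext x
    exact DFunLike.congr_fun this x
  have h2 : Nat.card (S → V) = Nat.card V ^ S.card := by
    rw [Nat.card_fun, Nat.card_eq_fintype_card (α := S), Fintype.card_coe]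
  rw [h2] at h1
  refine le_trans h1 (Nat.pow_le_pow_right Nat.card_pos ?_)
  exact (Nat.le_log_iff_pow_le one_lt_two Nat.card_pos.ne').2 hc

/-- A faithful group with a transitive normal subgroup `V` on `b` points has order at most `b |Aut V|`. -/
theorem card_le_of_transitive {Q : Type u} {X : Type v} [Group Q] [MulAction Q X] [FaithfulSMul Q X] [Finite Q] [Finite X] [Nonempty X]
    (V : Subgroup Q) [hV : V.Normal] (htr : ∀ x y : X, ∃ v ∈ V, v • x = y) :
    Nat.card Q ≤ Nat.card X * Nat.card V ^ Nat.log 2 (Nat.card V) := by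
  obtain ⟨x0⟩ := ‹Nonempty X›
  have h1 : Nat.card Q = Nat.card (stabilizer Q x0) * (stabilizer Q x0).index := (Subgroup.card_mul_index _).symm
  have h2 : (stabilizer Q x0).index ≤ Nat.card X := by
    rw [MulAction.index_stabilizer]
    exact Set.ncard_le_card _
  have h3 : Nat.card (stabilizer Q x0) ≤ Nat.card (MulAut V) := by
    refine Nat.card_le_card_of_injective (fun q => (MulAut.conjNormal (H := V) (q : Q))) ?_
    intro q r h
    have key : (q : Q)⁻¹ * r = 1 := by
      refine FaithfulSMul.eq_of_smul_eq_smul (α := X) fun x => ?_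
      obtain ⟨v, hv, rfl⟩ := htr x0 x
      have h4 : MulAut.conjNormal (H := V) ((q : Q)⁻¹ * r) = 1 := by
        rw [map_mul, map_inv]
        exact inv_mul_eq_one.2 h
      have h5 : ((q : Q)⁻¹ * r) * v * ((q : Q)⁻¹ * r)⁻¹ = v := by
        have := congrArg (fun f : MulAut V => ((f ⟨v, hv⟩ : V) : Q)) h4
        simp only [MulAut.conjNormal_apply] at this
        exact this
      have h6 : ((q : Q)⁻¹ * r) * v = v * ((q : Q)⁻¹ * r) := by
        rw [mul_inv_eq_iff_eq_mul] at h5; exact h5
      have h7 : ((q : Q)⁻¹ * r) • x0 = x0 := by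
        have := (q⁻¹ * r).2
        exact this
      rw [← mul_smul, h6, mul_smul, h7, one_smul]
    exact Subtype.ext (inv_mul_eq_one.1 key)
  calc Nat.card Q = Nat.card (stabilizer Q x0) * (stabilizer Q x0).index := h1
    _ ≤ (Nat.card V ^ Nat.log 2 (Nat.card V)) * Nat.card X := Nat.mul_le_mul (le_trans h3 (card_mulAut_le V)) h2
    _ = _ := mul_comm _ _

/-- A transitive group which is abelian, or completely reducible with small chief factors, is small. -/
theorem card_normal_le {V : Type u} {X : Type v} [Group V] [Finite V] [MulAction V X] [FaithfulSMul V X] [Finite X] [Nonempty X]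
    (htr : ∀ x y : X, ∃ v : V, v • x = y) {B e : ℕ} (hB : B ≤ 2 ^ e)
    (h : (∀ a b : V, a * b = b * a) ∨ (CR V ∧ ChiefLe B V)) : Nat.card V ≤ Nat.card X ^ (e + 1) := by
  obtain ⟨x0⟩ := ‹Nonempty X›
  have hpos : 1 ≤ Nat.card X := Nat.card_pos
  have h2 : (stabilizer V x0).index ≤ Nat.card X := by
    rw [MulAction.index_stabilizer]
    exact Set.ncard_le_card _
  rcases h with h | ⟨h1, h3⟩
  · have h4 : stabilizer V x0 = ⊥ := by
      rw [eq_bot_iff]
      intro q hq
      rw [mem_bot]
      refine FaithfulSMul.eq_of_smul_eq_smul (α := X) fun x => ?_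
      obtain ⟨v, rfl⟩ := htr x0 x
      rw [← mul_smul, h q v, mul_smul, (mem_stabilizer_iff.1 hq), one_smul]
    rw [h4, Subgroup.index_bot] at h2
    refine le_trans h2 ?_
    calc Nat.card X = Nat.card X ^ 1 := (pow_one _).symm
      _ ≤ Nat.card X ^ (e + 1) := Nat.pow_le_pow_right hpos (by omega)
  · have h4 : (stabilizer V x0).normalCore = ⊥ := by
      rw [eq_bot_iff]
      intro q hq
      rw [mem_bot]
      refine FaithfulSMul.eq_of_smul_eq_smul (α := X) fun x => ?_
      obtain ⟨v, rfl⟩ := htr x0 x
      have h5 : v⁻¹ * q * v⁻¹⁻¹ ∈ stabilizer V x0 := hq v⁻¹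
      rw [mem_stabilizer_iff, inv_inv, mul_smul, mul_smul, inv_smul_eq_iff] at h5
      rw [h5, one_smul]
    exact le_trans (card_le_index_pow B e hB _ V rfl h1 h3 _ h4) (Nat.pow_le_pow_left h2 _)

end Pool.Agent.Helper52.BC
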