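import Pool.Agent.Helper94.BC.Defs
import Pool.Agent.Helper52.BC.P3

/-!
# The block lemma
-/

set_option autoImplicit false

namespace Pool.Agent.Helper52.BC

open Subgroup Pool.Agent.Helper94.BC
open scoped Pointwise commutatorElement

/-- `CR` passes to surjective images. -/
theorem CR.of_surjective {V W : Type} [Group V] [Group W] (h : CR V) (f : V →* W) (hf : Function.Surjective f) : CR W := by
  have h1 : CR (V ⧸ f.ker) := h.quotient f.ker
  have e : V ⧸ f.ker ≃* W := QuotientGroup.quotientKerEquivOfSurjective f hf
  intro N' hN'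
  have hN : (N'.comap e.toMonoidHom).Normal := inferInstance
  obtain ⟨h2, h3⟩ := h1 _ hN
  have hc : (centralizer (N'.comap e.toMonoidHom : Set (V ⧸ f.ker))) = (centralizer (N' : Set W)).comap e.toMonoidHom := by
    ext x
    rw [mem_comap, mem_centralizer_iff, mem_centralizer_iff]
    constructor
    · intro hx y hy
      have := hx (e.symm y) (by
        show e.toMonoidHom (e.symm y) ∈ N'
        simpa using hy)
      have h4 := congrArg e this
      simpa using h4
    · intro hx y hy
      have := hx (e y) hy
      apply e.injective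
      simpa using this
  rw [hc] at h2 h3
  constructor
  · rw [← Subgroup.comap_inf] at h2
    rw [← Subgroup.map_comap_eq_self_of_surjective (f := e.toMonoidHom) e.surjective (N' ⊓ centralizer (N' : Set W)), h2, Subgroup.map_bot]
  · rw [eq_top_iff]
    rintro x -
    have h5 : e.symm x ∈ N'.comap e.toMonoidHom ⊔ (centralizer (N' : Set W)).comap e.toMonoidHom := by rw [h3]; trivial
    have h6 := Subgroup.mem_map_of_mem e.toMonoidHom h5
    rw [Subgroup.map_sup, Subgroup.map_comap_eq_self_of_surjective (f := e.toMonoidHom) e.surjective,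
      Subgroup.map_comap_eq_self_of_surjective (f := e.toMonoidHom) e.surjective] at h6
    simpa using h6

/-- The class passes to subgroups. -/
theorem cls_subgroup {B : ℕ} {G : Type} [Group G] (h : Cls B G) (V : Subgroup G) : Cls B V := by
  intro K N hKN
  have hinj := V.subtype_injective
  have h1 : NM (K.map V.subtype) (N.map V.subtype) := by
    refine ⟨Subgroup.map_mono hKN.le, ?_, ?_, ?_⟩
    · rintro _ ⟨x, hx, rfl⟩ _ ⟨n, hn, rfl⟩
      exact ⟨x * n * x⁻¹, hKN.nor x hx n hn, rfl⟩
    · intro hle
      rw [← Subgroup.map_commutator] at hle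
      exact hKN.nab ((Subgroup.map_le_map_iff_of_injective hinj).1 hle)
    · intro L h2 h3 h4
      have hL : (L.subgroupOf V).map V.subtype = L := by
        rw [Subgroup.subgroupOf_map_subtype]
        refine inf_eq_left.2 (h3.trans ?_)
        rintro _ ⟨x, _, rfl⟩; exact x.2
      have h6 := hKN.max (L.subgroupOf V) ?_ ?_ ?_
      · rcases h6 with h5 | h5
        · left; rw [← hL, h5]
        · right; rw [← hL, h5]
      · intro x hx
        exact mem_subgroupOf.2 (h2 ⟨x, hx, rfl⟩)
      · intro x hx
        obtain ⟨y, hy, hxy⟩ := h3 (mem_subgroupOf.1 hx)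
        rwa [← hinj hxy]
      · intro k hk l hl
        exact mem_subgroupOf.2 (h4 k ⟨k, hk, rfl⟩ l (mem_subgroupOf.1 hl))
  have h2 := h _ _ h1
  rwa [Subgroup.relIndex_map_map_of_injective _ _ hinj] at h2

/-- The class passes to surjective images. -/
theorem cls_surj {B : ℕ} {G H : Type} [Group G] [Group H] (h : Cls B G) (f : G →* H) (hf : Function.Surjective f) : Cls B H := by
  intro K N hKN
  have hmc := fun A : Subgroup H => Subgroup.map_comap_eq_self_of_surjective hf A
  have h1 : NM (K.comap f) (N.comap f) := by
    refine ⟨Subgroup.comap_mono hKN.le, ?_, ?_, ?_⟩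
    · intro x hx n hn
      rw [mem_comap] at hx hn ⊢
      rw [map_mul, map_mul, map_inv]
      exact hKN.nor _ hx _ hn
    · intro hle
      apply hKN.nab
      have := Subgroup.map_mono (f := f) hle
      rwa [Subgroup.map_commutator, hmc, hmc] at this
    · intro L h2 h3 h4
      have hL : (L.map f).comap f = L := Subgroup.comap_map_eq_self ((f.ker_le_comap N).trans h2)
      have h6 := hKN.max (L.map f) ?_ ?_ ?_
      · rcases h6 with h5 | h5
        · left; rw [← hL, h5]
        · right; rw [← hL, h5]
      · rw [← hmc N]; exact Subgroup.map_mono h2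
      · rw [← hmc K]; exact Subgroup.map_mono h3
      · rintro k hk _ ⟨l, hl, rfl⟩
        obtain ⟨k, rfl⟩ := hf k
        exact ⟨k * l * k⁻¹, h4 k hk l hl, by simp⟩
  have h2 := h _ _ h1
  rwa [Subgroup.relIndex_comap, hmc] at h2

/-- In a completely reducible group of the class the chief factors are small. -/
theorem CR.chiefLe' {B : ℕ} {V : Type} [Group V] (h : CR V) (hB : 1 ≤ B) (hs : Cls B V) : ChiefLe B V := by
  intro K L hK hL hKL hmin
  by_cases hne : K = L
  · subst hne
    rw [Subgroup.relIndex_self]; exact hB
  refine hs L K ⟨hKL, nor_of_normal L hK, ?_, ?_⟩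
  · intro hcon
    have hC : (centralizer (K : Set V)).Normal := inferInstance
    set T := L ⊓ centralizer (K : Set V) with hT
    have hTn : T.Normal := Subgroup.normal_inf_normal _ _
    have hTT : T ≤ centralizer (T : Set V) := by
      intro y hy
      rw [mem_centralizer_iff]
      intro x hx
      have h1 : x * y * x⁻¹ * y⁻¹ ∈ K ⊓ centralizer (K : Set V) := by
        refine ⟨hcon (Subgroup.commutator_mem_commutator hx.1 hy.1), ?_⟩
        have h2 : x * y * x⁻¹ ∈ centralizer (K : Set V) := hC.conj_mem y hy.2 x
        exact (centralizer (K : Set V)).mul_mem h2 ((centralizer (K : Set V)).inv_mem hy.2)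
      rw [(h K hK).1, mem_bot] at h1
      have h2 := mul_inv_eq_one.1 h1
      rw [mul_inv_eq_iff_eq_mul] at h2
      exact h2
    have hTb : T = ⊥ := by
      rw [← (h T hTn).1]; exact (inf_eq_left.2 hTT).symm
    apply hne
    refine le_antisymm hKL fun x hx => ?_
    have hx' : x ∈ K ⊔ centralizer (K : Set V) := by rw [(h K hK).2]; trivial
    obtain ⟨k, hk, c, hc, rfl⟩ := Subgroup.mem_sup_of_normal_left.1 hx'
    have : c ∈ T := by
      refine ⟨?_, hc⟩
      have : c = k⁻¹ * (k * c) := by group
      rw [this]; exact L.mul_mem (L.inv_mem (hKL hk)) hx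
    rw [hTb, mem_bot] at this
    rw [this, mul_one]; exact hk
  · intro M h1 h2 h3
    exact hmin M (h.normal_of_sub L M hL h2 h3) h1 h2

end Pool.Agent.Helper52.BC
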