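import Mathlib

/-!
# Lemma P: core-free subgroups of completely reducible groups with small non-abelian factors
-/

set_option autoImplicit false

namespace Pool.Agent.Helper52.BC

open Subgroup

universe u

/-- Every normal subgroup is complemented by its centralizer. -/
def CR (V : Type u) [Group V] : Prop :=
  ∀ N : Subgroup V, N.Normal → N ⊓ centralizer (N : Set V) = ⊥ ∧ N ⊔ centralizer (N : Set V) = ⊤

/-- The chief factors of `V` have at most `B` elements. -/
def ChiefLe (B : ℕ) (V : Type u) [Group V] : Prop :=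
  ∀ K L : Subgroup V, K.Normal → L.Normal → K ≤ L →
    (∀ M : Subgroup V, M.Normal → K ≤ M → M ≤ L → M = K ∨ M = L) → K.relIndex L ≤ B

theorem relIndex_ne {V : Type u} [Group V] [Finite V] (H K : Subgroup V) : H.relIndex K ≠ 0 :=
  Subgroup.index_ne_zero_of_finite

theorem CR.normal_of_sub {V : Type u} [Group V] (h : CR V) (D E : Subgroup V) (hD : D.Normal) (hE : E ≤ D)
    (hn : ∀ d ∈ D, ∀ x ∈ E, d * x * d⁻¹ ∈ E) : E.Normal := by
  refine ⟨fun x hx v => ?_⟩
  have hv : v ∈ D ⊔ centralizer (D : Set V) := by rw [(h D hD).2]; trivial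
  have hcn : (centralizer (D : Set V)).Normal := inferInstance
  obtain ⟨d, hd, c, hc, rfl⟩ := Subgroup.mem_sup_of_normal_left.1 hv
  have h1 : c * x * c⁻¹ = x := by
    have := (mem_centralizer_iff.1 hc) x (hE hx)
    rw [← this]; group
  have : d * c * x * (d * c)⁻¹ = d * (c * x * c⁻¹) * d⁻¹ := by group
  rw [this, h1]
  exact hn d hd x hx

/-- `CR` passes to quotients. -/
theorem CR.quotient {V : Type u} [Group V] (h : CR V) (K : Subgroup V) [hK : K.Normal] : CR (V ⧸ K) := by
  intro N' hN'
  have hsurj := QuotientGroup.mk'_surjective K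
  set f := QuotientGroup.mk' K with hf
  have hker : f.ker = K := QuotientGroup.ker_mk' K
  set N := N'.comap f with hN
  have hNn : N.Normal := inferInstance
  have hKN : K ≤ N := by rw [← hker]; exact f.ker_le_comap _
  have hmap : N.map f = N' := Subgroup.map_comap_eq_self_of_surjective hsurj N'
  constructor
  · rw [eq_bot_iff]
    rintro x ⟨hx1, hx2⟩
    obtain ⟨y, rfl⟩ := hsurj x
    have hyN : y ∈ N := hx1
    have hy : y ∈ K ⊔ centralizer (K : Set V) := by rw [(h K hK).2]; trivial
    have hcn : (centralizer (K : Set V)).Normal := inferInstance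
    obtain ⟨k, hk, l, hl, rfl⟩ := Subgroup.mem_sup_of_normal_left.1 hy
    have hlN : l ∈ N := by
      have : l = k⁻¹ * (k * l) := by group
      rw [this]; exact N.mul_mem (N.inv_mem (hKN hk)) hyN
    have hfl : f (k * l) = f l := by
      have hk1 : f k = 1 := by rw [← MonoidHom.mem_ker, hker]; exact hk
      rw [map_mul, hk1, one_mul]
    have hl1 : l ∈ centralizer (N : Set V) := by
      rw [mem_centralizer_iff]
      intro n hn
      have h1 : f n * f (k * l) = f (k * l) * f n := (mem_centralizer_iff.1 hx2) (f n) hn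
      rw [hfl, ← map_mul, ← map_mul] at h1
      have h2 : n * l * n⁻¹ * l⁻¹ ∈ K := by
        have h5 : f (n * l * n⁻¹ * l⁻¹) = f (n * l) * (f (l * n))⁻¹ := by
          rw [← map_inv, ← map_mul]; congr 1; group
        rw [← hker, MonoidHom.mem_ker, h5, h1, mul_inv_cancel]
      have h3 : n * l * n⁻¹ * l⁻¹ ∈ centralizer (K : Set V) :=
        mul_mem (hcn.conj_mem l hl n) (inv_mem hl)
      have h4 : n * l * n⁻¹ * l⁻¹ ∈ K ⊓ centralizer (K : Set V) := ⟨h2, h3⟩
      rw [(h K hK).1, mem_bot] at h4
      have : n * l = l * n := by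
        have := mul_inv_eq_one.1 h4
        rw [mul_inv_eq_iff_eq_mul] at this
        exact this
      exact this
    have : l ∈ N ⊓ centralizer (N : Set V) := ⟨hlN, hl1⟩
    rw [(h N hNn).1, mem_bot] at this
    rw [this, mul_one, mem_bot]
    exact (QuotientGroup.eq_one_iff k).2 hk
  · rw [eq_top_iff]
    rintro x -
    obtain ⟨y, rfl⟩ := hsurj x
    have hy : y ∈ N ⊔ centralizer (N : Set V) := by rw [(h N hNn).2]; trivial
    have hcn : (centralizer (N : Set V)).Normal := inferInstance
    obtain ⟨n, hn, c, hc, rfl⟩ := Subgroup.mem_sup_of_normal_left.1 hy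
    rw [map_mul]
    refine mul_mem (mem_sup_left hn) (mem_sup_right ?_)
    rw [mem_centralizer_iff]
    intro z hz
    obtain ⟨w, rfl⟩ := hsurj z
    rw [← map_mul, ← map_mul, (mem_centralizer_iff.1 hc) w hz]

theorem ChiefLe.quotient {B : ℕ} {V : Type u} [Group V] (h : ChiefLe B V) (K : Subgroup V) [hK : K.Normal] :
    ChiefLe B (V ⧸ K) := by
  intro K' L' hK' hL' hKL hmin
  have hsurj := QuotientGroup.mk'_surjective K
  set f := QuotientGroup.mk' K with hf
  have h1 := h (K'.comap f) (L'.comap f) inferInstance inferInstance (Subgroup.comap_mono hKL) (by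
    intro M hM h1 h2
    have hkM : f.ker ≤ M := le_trans (f.ker_le_comap _) h1
    have hM' : (M.map f).Normal := hM.map f hsurj
    have e : (M.map f).comap f = M := Subgroup.comap_map_eq_self hkM
    rcases hmin (M.map f) hM' (by
      rw [← Subgroup.map_comap_eq_self_of_surjective hsurj K']; exact Subgroup.map_mono h1) (by
      rw [← Subgroup.map_comap_eq_self_of_surjective hsurj L']; exact Subgroup.map_mono h2) with h | h
    · left; rw [← e, h]
    · right; rw [← e, h])
  rwa [Subgroup.relIndex_comap, Subgroup.map_comap_eq_self_of_surjective hsurj L'] at h1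

/-- LEMMA P: the order of a completely reducible group is polynomial in the index of a core-free subgroup. -/
theorem card_le_index_pow (B e : ℕ) (hB : B ≤ 2 ^ e) (n : ℕ) :
    ∀ (V : Type u) [Group V] [Finite V], Nat.card V = n → CR V → ChiefLe B V →
      ∀ Y : Subgroup V, Y.normalCore = ⊥ → Nat.card V ≤ Y.index ^ (e + 1) := by
  induction n using Nat.strong_induction_on with
  | _ n ih =>
    intro V _ _ hn hCR hch Y hY
    by_cases htriv : Nat.card V = 1
    · rw [htriv]
      exact Nat.one_le_pow _ _ (Nat.pos_of_ne_zero Y.index_ne_zero_of_finite)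
    -- a minimal normal subgroup
    have hVnt : Nontrivial V := by
      rw [← Finite.one_lt_card_iff_nontrivial]
      have := Nat.card_pos (α := V)
      omega
    obtain ⟨T, hT, hTn, hTm⟩ : ∃ T : Subgroup V, T ≠ ⊥ ∧ T.Normal ∧ ∀ M : Subgroup V, M.Normal → M ≤ T → M = ⊥ ∨ M = T := by
      have hfin : {M : Subgroup V | M.Normal ∧ M ≠ ⊥}.Finite := Set.toFinite _
      have hne : {M : Subgroup V | M.Normal ∧ M ≠ ⊥}.Nonempty := ⟨⊤, inferInstance, top_ne_bot⟩
      obtain ⟨T, hT⟩ := hfin.exists_minimal hne
      refine ⟨T, hT.1.2, hT.1.1, fun M hM hMT => ?_⟩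
      by_cases h0 : M = ⊥
      · exact Or.inl h0
      · exact Or.inr (le_antisymm hMT (hT.2 ⟨hM, h0⟩ hMT))
    have hTB : Nat.card T ≤ 2 ^ e := by
      have := hch ⊥ T inferInstance hTn bot_le (fun M hM _ h => hTm M hM h)
      rw [Subgroup.relIndex_bot_left] at this
      exact le_trans this hB
    set Z := Y ⊔ T with hZ
    have hYZ : Y ≤ Z := le_sup_left
    set K := Z.normalCore with hK
    have hKn : K.Normal := Subgroup.normalCore_normal Z
    have hKZ : K ≤ Z := Subgroup.normalCore_le Z
    have hTK : T ≤ K := by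
      rw [hK, Subgroup.normal_le_normalCore]; exact le_sup_right
    set c := Y.relIndex Z with hc
    have hcpos : c ≠ 0 := by
      rw [hc]; exact relIndex_ne _ _
    have hc2 : 2 ≤ c := by
      by_contra hlt
      have h1 : c = 1 := by omega
      have h2 : Z ≤ Y := Subgroup.relIndex_eq_one.1 h1
      have h3 : T ≤ Y := le_trans le_sup_right h2
      have h4 : T ≤ Y.normalCore := Subgroup.normal_le_normalCore.2 h3
      rw [hY] at h4
      exact hT (le_bot_iff.1 h4)
    -- the complement of T in K
    set D := K ⊓ centralizer (T : Set V) with hD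
    have hDn : D.Normal := by
      have : (centralizer (T : Set V)).Normal := inferInstance
      exact Subgroup.normal_inf_normal _ _
    have hDZ : D ≤ Z := le_trans inf_le_left hKZ
    have hKTD : K ≤ T ⊔ D := by
      intro x hx
      have hx' : x ∈ T ⊔ centralizer (T : Set V) := by rw [(hCR T hTn).2]; trivial
      obtain ⟨t, ht, d, hd, rfl⟩ := Subgroup.mem_sup_of_normal_left.1 hx'
      refine mul_mem (mem_sup_left ht) (mem_sup_right ⟨?_, hd⟩)
      have : d = t⁻¹ * (t * d) := by group
      rw [this]; exact K.mul_mem (K.inv_mem (hTK ht)) hx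
    -- D meets Y trivially
    have hDY : D ⊓ Y = ⊥ := by
      have hN : (D ⊓ Y).Normal := by
        refine hCR.normal_of_sub D (D ⊓ Y) hDn inf_le_left ?_
        rintro z hz x ⟨hx1, hx2⟩
        refine ⟨hDn.conj_mem x hx1 z, ?_⟩
        have hzZ : z ∈ Y ⊔ T := hDZ hz
        obtain ⟨y, hy, t, ht, rfl⟩ := Subgroup.mem_sup_of_normal_right.1 hzZ
        have h1 : t * x * t⁻¹ = x := by
          have := (mem_centralizer_iff.1 hx1.2) t ht
          rw [this]; group
        have h2 : y * t * x * (y * t)⁻¹ = y * (t * x * t⁻¹) * y⁻¹ := by group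
        rw [h2, h1]
        exact Y.mul_mem (Y.mul_mem hy hx2) (Y.inv_mem hy)
      have h4 : D ⊓ Y ≤ Y.normalCore := Subgroup.normal_le_normalCore.2 inf_le_right
      rw [hY] at h4
      exact le_bot_iff.1 h4
    have hDc : Nat.card D ≤ c := by
      have h1 : Y.relIndex D = Nat.card D := by
        rw [← Subgroup.inf_relIndex_left, hDY, Subgroup.relIndex_bot_left]
      rw [← h1]
      exact Subgroup.relIndex_le_of_le_right hDZ hcpos
    have hKc : Nat.card K ≤ c ^ (e + 1) := by
      have h1 : Nat.card K ≤ Nat.card T * Nat.card D := by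
        have h2 : T.relIndex K ≤ Nat.card D := by
          calc T.relIndex K ≤ T.relIndex (T ⊔ D) := Subgroup.relIndex_le_of_le_right hKTD (relIndex_ne _ _)
            _ = T.relIndex D := Subgroup.relIndex_sup_left D T
            _ ≤ (⊥ : Subgroup V).relIndex D := Subgroup.relIndex_le_of_le_left bot_le (relIndex_ne _ _)
            _ = Nat.card D := Subgroup.relIndex_bot_left D
        have h3 := Subgroup.relIndex_mul_relIndex (⊥ : Subgroup V) T K bot_le hTK
        rw [Subgroup.relIndex_bot_left, Subgroup.relIndex_bot_left] at h3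
        rw [← h3]
        exact Nat.mul_le_mul le_rfl h2
      calc Nat.card K ≤ Nat.card T * Nat.card D := h1
        _ ≤ 2 ^ e * c := Nat.mul_le_mul hTB hDc
        _ ≤ c ^ e * c := Nat.mul_le_mul (Nat.pow_le_pow_left hc2 e) le_rfl
        _ = c ^ (e + 1) := (pow_succ _ _).symm
    -- the quotient
    have hcardV : Nat.card V = Nat.card (V ⧸ K) * Nat.card K := Subgroup.card_eq_card_quotient_mul_card_subgroup K
    have hKcard : 2 ≤ Nat.card K := by
      have h1 : Nat.card K ≠ 1 := by
        intro h
        have h2 : K = ⊥ := Subgroup.card_eq_one.1 h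
        exact hT (le_bot_iff.1 (h2 ▸ hTK))
      have := Nat.card_pos (α := K)
      omega
    have hlt : Nat.card (V ⧸ K) < n := by
      rw [← hn, hcardV]
      have := Nat.card_pos (α := V ⧸ K)
      nlinarith
    have hsurj := QuotientGroup.mk'_surjective K
    have hker : (QuotientGroup.mk' K).ker = K := QuotientGroup.ker_mk' K
    have hcm : (Z.map (QuotientGroup.mk' K)).comap (QuotientGroup.mk' K) = Z :=
      Subgroup.comap_map_eq_self (by rw [hker]; exact hKZ)
    have hcore : (Z.map (QuotientGroup.mk' K)).normalCore = ⊥ := by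
      rw [eq_bot_iff]
      have h1 : ((Z.map (QuotientGroup.mk' K)).normalCore).comap (QuotientGroup.mk' K) ≤ K := by
        have h2 : ((Z.map (QuotientGroup.mk' K)).normalCore).comap (QuotientGroup.mk' K) ≤ Z := by
          conv_rhs => rw [← hcm]
          exact Subgroup.comap_mono (Subgroup.normalCore_le _)
        exact Subgroup.normal_le_normalCore.2 h2
      rw [← Subgroup.map_comap_eq_self_of_surjective hsurj ((Z.map (QuotientGroup.mk' K)).normalCore)]
      refine le_trans (Subgroup.map_mono h1) ?_
      rw [Subgroup.map_le_iff_le_comap, MonoidHom.comap_bot, hker]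
    have hih := ih _ hlt (V ⧸ K) rfl (hCR.quotient K) (hch.quotient K) _ hcore
    have hind : (Z.map (QuotientGroup.mk' K)).index = Z.index := by
      rw [← Subgroup.index_comap_of_surjective _ hsurj, hcm]
    rw [hind] at hih
    calc Nat.card V = Nat.card (V ⧸ K) * Nat.card K := hcardV
      _ ≤ Z.index ^ (e + 1) * c ^ (e + 1) := Nat.mul_le_mul hih hKc
      _ = (c * Z.index) ^ (e + 1) := by rw [mul_comm, mul_pow]
      _ = Y.index ^ (e + 1) := by rw [hc, Subgroup.relIndex_mul_index hYZ]

end Pool.Agent.Helper52.BC
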