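import Pool.Agent.Helper52.BC.P

/-!
# Minimal normal non-abelian subgroups are completely reducible
-/

set_option autoImplicit false

namespace Pool.Agent.Helper52.BC

open Subgroup

universe u

/-- A finite non-abelian group without proper subgroups invariant under a group of automorphisms (containing the inner ones) is `CR`. -/
theorem cr_of_invariant {V : Type u} [Group V] [Finite V] (Φ : Subgroup (MulAut V))
    (hmin : ∀ N : Subgroup V, (∀ φ ∈ Φ, ∀ x ∈ N, φ x ∈ N) → N = ⊥ ∨ N = ⊤) (hna : ¬ ∀ a b : V, a * b = b * a) : CR V := by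
  have hVnt : Nontrivial V := by
    by_contra h
    rw [not_nontrivial_iff_subsingleton] at h
    exact hna fun a b => Subsingleton.elim _ _
  -- a minimal normal subgroup
  obtain ⟨S, hS, hSn, hSm⟩ : ∃ T : Subgroup V, T ≠ ⊥ ∧ T.Normal ∧ ∀ M : Subgroup V, M.Normal → M ≤ T → M = ⊥ ∨ M = T := by
    have hfin : {M : Subgroup V | M.Normal ∧ M ≠ ⊥}.Finite := Set.toFinite _
    have hne : {M : Subgroup V | M.Normal ∧ M ≠ ⊥}.Nonempty := ⟨⊤, inferInstance, top_ne_bot⟩
    obtain ⟨T, hT⟩ := hfin.exists_minimal hne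
    refine ⟨T, hT.1.2, hT.1.1, fun M hM hMT => ?_⟩
    by_cases h0 : M = ⊥
    · exact Or.inl h0
    · exact Or.inr (le_antisymm hMT (hT.2 ⟨hM, h0⟩ hMT))
  -- its images generate
  have hJ : (⨆ φ : Φ, S.map (φ : MulAut V).toMonoidHom) = ⊤ := by
    rcases hmin (⨆ φ : Φ, S.map (φ : MulAut V).toMonoidHom) (by
      intro φ hφ x hx
      have h1 : (⨆ ψ : Φ, S.map (ψ : MulAut V).toMonoidHom).map (φ : MulAut V).toMonoidHom ≤ ⨆ ψ : Φ, S.map (ψ : MulAut V).toMonoidHom := by
        rw [Subgroup.map_iSup]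
        refine iSup_le fun ψ => ?_
        rw [Subgroup.map_map]
        refine le_trans (le_of_eq ?_) (le_iSup (fun ψ : Φ => S.map (ψ : MulAut V).toMonoidHom) ⟨φ * ψ, Φ.mul_mem hφ ψ.2⟩)
        rfl
      exact h1 (Subgroup.mem_map_of_mem _ hx)) with h | h
    · exfalso
      have h1 : S.map ((1 : Φ) : MulAut V).toMonoidHom ≤ ⊥ := by rw [← h]; exact le_iSup (fun ψ : Φ => S.map (ψ : MulAut V).toMonoidHom) 1
      apply hS
      rw [eq_bot_iff]
      intro x hx
      have := h1 (Subgroup.mem_map_of_mem _ hx)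
      simpa using this
    · exact h
  have himn : ∀ φ : Φ, (S.map (φ : MulAut V).toMonoidHom).Normal := fun φ => hSn.map _ (φ : MulAut V).surjective
  have himm : ∀ φ : Φ, ∀ M : Subgroup V, M.Normal → M ≤ S.map (φ : MulAut V).toMonoidHom → M = ⊥ ∨ M = S.map (φ : MulAut V).toMonoidHom := by
    intro φ M hM hle
    have hinj : Function.Injective (φ : MulAut V).toMonoidHom := (φ : MulAut V).injective
    have hsurj : Function.Surjective (φ : MulAut V).toMonoidHom := (φ : MulAut V).surjective
    have h1 : (M.comap (φ : MulAut V).toMonoidHom).Normal := inferInstance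
    have h2 : M.comap (φ : MulAut V).toMonoidHom ≤ S := by
      rw [← Subgroup.comap_map_eq_self_of_injective hinj S]
      exact Subgroup.comap_mono hle
    rcases hSm _ h1 h2 with h | h
    · left
      rw [← Subgroup.map_comap_eq_self_of_surjective hsurj M, h, Subgroup.map_bot]
    · right
      rw [← Subgroup.map_comap_eq_self_of_surjective hsurj M, h]
  -- normal complements
  have hcompl : ∀ N : Subgroup V, N.Normal → ∃ M : Subgroup V, M.Normal ∧ N ⊓ M = ⊥ ∧ N ⊔ M = ⊤ := by
    intro N hN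
    have hfin : {M : Subgroup V | M.Normal ∧ N ⊓ M = ⊥}.Finite := Set.toFinite _
    have hne : {M : Subgroup V | M.Normal ∧ N ⊓ M = ⊥}.Nonempty := ⟨⊥, inferInstance, inf_bot_eq _⟩
    obtain ⟨M, hM⟩ := hfin.exists_maximal hne
    refine ⟨M, hM.1.1, hM.1.2, ?_⟩
    rw [eq_top_iff, ← hJ]
    refine iSup_le fun φ => ?_
    set A := S.map (φ : MulAut V).toMonoidHom with hA
    have hAn : A.Normal := himn φ
    have hMn : M.Normal := hM.1.1
    have hNM : (N ⊔ M).Normal := inferInstance
    rcases himm φ (A ⊓ (N ⊔ M)) inferInstance inf_le_left with h | h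
    · exfalso
      have h1 : N ⊓ (M ⊔ A) = ⊥ := by
        rw [eq_bot_iff]
        rintro x ⟨hx1, hx2⟩
        obtain ⟨m, hm, a, ha, rfl⟩ := Subgroup.mem_sup_of_normal_left.1 (show x ∈ M ⊔ A from hx2)
        have ha' : a ∈ N ⊔ M := by
          have : a = m⁻¹ * (m * a) := by group
          rw [this]
          exact (N ⊔ M).mul_mem ((N ⊔ M).inv_mem (mem_sup_right hm)) (mem_sup_left hx1)
        have ha1 : a ∈ A ⊓ (N ⊔ M) := ⟨ha, ha'⟩
        rw [h, mem_bot] at ha1
        subst ha1
        rw [mul_one] at hx1 ⊢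
        have : m ∈ N ⊓ M := ⟨hx1, hm⟩
        rwa [hM.1.2] at this
      have h2 : M ⊔ A ≤ M := hM.2 ⟨inferInstance, h1⟩ le_sup_left
      have h3 : A ≤ N ⊔ M := le_trans le_sup_right (le_trans h2 le_sup_right)
      have h4 : A = ⊥ := by rw [← h]; exact (inf_eq_left.2 h3).symm
      apply hS
      have hinj : Function.Injective (φ : MulAut V).toMonoidHom := (φ : MulAut V).injective
      rw [hA] at h4
      exact (Subgroup.map_eq_bot_iff_of_injective _ hinj).1 h4
    · exact (inf_eq_left.1 h)
  -- the center is trivial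
  have hZ : center V = ⊥ := by
    rcases hmin (center V) (by
      intro φ _ x hx
      rw [mem_center_iff] at hx ⊢
      intro g
      have := hx (φ.symm g)
      have h2 := congrArg φ this
      rwa [map_mul, map_mul, MulEquiv.apply_symm_apply] at h2) with h | h
    · exact h
    · exfalso
      apply hna
      intro a b
      have : b ∈ center V := by rw [h]; trivial
      exact mem_center_iff.1 this a
  intro N hN
  obtain ⟨M, hMn, h1, h2⟩ := hcompl N hN
  have hcomm : ∀ x ∈ N, ∀ y ∈ M, x * y = y * x := by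
    intro x hx y hy
    exact Subgroup.commute_of_normal_of_disjoint N M hN hMn (disjoint_iff.2 h1) x y hx hy
  have hMC : M ≤ centralizer (N : Set V) := by
    intro y hy
    rw [mem_centralizer_iff]
    intro x hx
    exact hcomm x hx y hy
  refine ⟨?_, eq_top_iff.2 (h2 ▸ sup_le_sup_left hMC N)⟩
  rw [eq_bot_iff, ← hZ]
  rintro x ⟨hx1, hx2⟩
  rw [mem_center_iff]
  intro g
  have hg : g ∈ N ⊔ M := by rw [h2]; trivial
  obtain ⟨n, hn, m, hm, rfl⟩ := Subgroup.mem_sup_of_normal_left.1 hg
  have e1 : n * x = x * n := (mem_centralizer_iff.1 hx2) n hn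
  have e2 : x * m = m * x := hcomm x hx1 m hm
  rw [mul_assoc, ← e2, ← mul_assoc, e1, mul_assoc]

/-- A minimal normal non-abelian subgroup of a group is `CR`. -/
theorem cr_of_minimal {G : Type u} [Group G] (V : Subgroup G) [hV : V.Normal] [Finite V]
    (hmin : ∀ N : Subgroup G, N.Normal → N ≤ V → N = ⊥ ∨ N = V) (hna : ¬ ∀ a ∈ V, ∀ b ∈ V, a * b = b * a) : CR V := by
  refine cr_of_invariant (MulAut.conjNormal (H := V)).range ?_ ?_
  · intro N hN
    have hn : (N.map V.subtype).Normal := by
      refine ⟨?_⟩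
      rintro _ ⟨x, hx, rfl⟩ g
      refine ⟨MulAut.conjNormal g x, hN _ ⟨g, rfl⟩ x hx, ?_⟩
      simp [MulAut.conjNormal_apply]
    rcases hmin _ hn (by rintro _ ⟨x, _, rfl⟩; exact x.2) with h | h
    · left
      exact (Subgroup.map_eq_bot_iff_of_injective _ V.subtype_injective).1 h
    · right
      rw [eq_top_iff]
      rintro x -
      have : (x : G) ∈ N.map V.subtype := by rw [h]; exact x.2
      obtain ⟨y, hy, hxy⟩ := this
      have : y = x := Subtype.ext hxy
      rwa [← this]
  · intro h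
    apply hna
    intro a ha b hb
    have := h ⟨a, ha⟩ ⟨b, hb⟩
    exact congrArg Subtype.val this

end Pool.Agent.Helper52.BC
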