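import Pool.Agent.Helper52.BC.P0

/-!
# Chief factors of completely reducible groups are sections, and the order of a transitive group
-/

set_option autoImplicit false

namespace Pool.Agent.Helper52.BC

open Subgroup

universe u

/-- Every non-abelian simple section of `V` has at most `B` elements. -/
def SecLe (B : ℕ) (V : Type u) [Group V] : Prop :=
  ∀ (H : Subgroup V) (N : Subgroup H) (_ : N.Normal), IsSimpleGroup (H ⧸ N) → (∃ a b : H ⧸ N, a * b ≠ b * a) → Nat.card (H ⧸ N) ≤ B

theorem CR.chiefLe {B : ℕ} {V : Type u} [Group V] (h : CR V) (hB : 1 ≤ B) (hs : SecLe B V) : ChiefLe B V := by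
  intro K L hK hL hKL hmin
  by_cases hne : K = L
  · subst hne
    rw [Subgroup.relIndex_self]; exact hB
  have hN : (K.subgroupOf L).Normal := Subgroup.normal_subgroupOf
  set N := K.subgroupOf L with hNdef
  have hmem : ∀ x : L, x ∈ N ↔ (x : V) ∈ K := fun x => Subgroup.mem_subgroupOf
  have hlt : ∃ x : L, x ∉ N := by
    by_contra hcon
    push Not at hcon
    exact hne (le_antisymm hKL fun x hx => (hmem ⟨x, hx⟩).1 (hcon ⟨x, hx⟩))
  refine hs L N hN ?_ ?_
  · have hnt : Nontrivial (L ⧸ N) := by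
      obtain ⟨x, hx⟩ := hlt
      exact ⟨⟨(x : L ⧸ N), 1, fun h => hx ((QuotientGroup.eq_one_iff x).1 h)⟩⟩
    refine { exists_pair_ne := hnt.exists_pair_ne, eq_bot_or_eq_top_of_normal := fun Q hQ => ?_ }
    have hsurj := QuotientGroup.mk'_surjective N
    set M0 := Q.comap (QuotientGroup.mk' N) with hM0
    have hM0n : M0.Normal := inferInstance
    have hNM0 : N ≤ M0 := by
      intro x hx
      rw [hM0, Subgroup.mem_comap]
      have : QuotientGroup.mk' N x = 1 := (QuotientGroup.eq_one_iff x).2 hx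
      rw [this]; exact Q.one_mem
    set M := M0.map L.subtype with hM
    have hMn : M.Normal := by
      refine h.normal_of_sub L M hL ?_ ?_
      · rintro _ ⟨x, _, rfl⟩; exact x.2
      · rintro d hd _ ⟨x, hx, rfl⟩
        exact ⟨⟨d, hd⟩ * x * ⟨d, hd⟩⁻¹, hM0n.conj_mem x hx _, rfl⟩
    have hKM : K ≤ M := fun x hx => ⟨⟨x, hKL hx⟩, hNM0 ((hmem _).2 hx), rfl⟩
    have hML : M ≤ L := by rintro _ ⟨x, _, rfl⟩; exact x.2
    have hMM : ∀ x : L, (x : V) ∈ M ↔ x ∈ M0 := by
      intro x
      constructor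
      · rintro ⟨y, hy, hxy⟩
        rwa [← (Subtype.ext hxy : y = x)]
      · intro hx; exact ⟨x, hx, rfl⟩
    rcases hmin M hMn hKM hML with h1 | h1
    · left
      rw [eq_bot_iff]
      intro q hq
      obtain ⟨x, rfl⟩ := hsurj q
      have : x ∈ M0 := hq
      rw [← hMM, h1, ← hmem] at this
      exact (QuotientGroup.eq_one_iff x).2 this
    · right
      rw [eq_top_iff]
      rintro q -
      obtain ⟨x, rfl⟩ := hsurj q
      have : x ∈ M0 := by rw [← hMM, h1]; exact x.2
      exact this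
  · by_contra hcon
    push Not at hcon
    have hC : (centralizer (K : Set V)).Normal := inferInstance
    set T := L ⊓ centralizer (K : Set V) with hT
    have hTn : T.Normal := Subgroup.normal_inf_normal _ _
    have hcomm : ∀ x ∈ L, ∀ y ∈ L, x * y * x⁻¹ * y⁻¹ ∈ K := by
      intro x hx y hy
      have h1 := hcon ((⟨x, hx⟩ : L) : L ⧸ N) ((⟨y, hy⟩ : L) : L ⧸ N)
      have h2 : ((⟨x, hx⟩ * ⟨y, hy⟩ * ⟨x, hx⟩⁻¹ * ⟨y, hy⟩⁻¹ : L) : L ⧸ N) = 1 := by
        rw [QuotientGroup.mk_mul, QuotientGroup.mk_mul, QuotientGroup.mk_mul, QuotientGroup.mk_inv, QuotientGroup.mk_inv, h1]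
        group
      have h3 := (QuotientGroup.eq_one_iff _).1 h2
      exact (hmem _).1 h3
    have hTT : T ≤ centralizer (T : Set V) := by
      intro y hy
      rw [mem_centralizer_iff]
      intro x hx
      have h1 : x * y * x⁻¹ * y⁻¹ ∈ K ⊓ centralizer (K : Set V) := by
        refine ⟨hcomm x hx.1 y hy.1, ?_⟩
        have h2 : x * y * x⁻¹ ∈ centralizer (K : Set V) := hC.conj_mem y hy.2 x
        exact (centralizer (K : Set V)).mul_mem h2 ((centralizer (K : Set V)).inv_mem hy.2)
      rw [(h K hK).1, mem_bot] at h1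
      have h2 := mul_inv_eq_one.1 h1
      rw [mul_inv_eq_iff_eq_mul] at h2
      exact h2
    have hTb : T = ⊥ := by
      rw [← (h T hTn).1]; exact (inf_eq_left.2 hTT).symm
    apply hne
    refine le_antisymm hKL fun x hx => ?_
    have hx' : x ∈ K ⊔ centralizer (K : Set V) := by rw [(h K hK).2]; trivial
    obtain ⟨k, hk, c, hc, rfl⟩ := Subgroup.mem_sup_of_normal_left.1 hx'
    have : c ∈ T := by
      refine ⟨?_, hc⟩
      have : c = k⁻¹ * (k * c) := by group
      rw [this]; exact L.mul_mem (L.inv_mem (hKL hk)) hx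
    rw [hTb, mem_bot] at this
    rw [this, mul_one]; exact hk

end Pool.Agent.Helper52.BC
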